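import Mathlib
import Pool.Agent.H38.AG.Targets

/-!
# The height is at most `rad ^ (1 / 3 + ε)` for 100 percent of all triples: targets
-/

set_option autoImplicit false

open Pool.Agent.H38.RB Pool.Agent.H38.PS

namespace Pool.Agent.H82.TG

/-- RT: the triples of moderate height, all three radicals being about `X ^ (1 / 3)`. -/
def T_RT : Prop := ∀ ε A : ℝ, 0 < ε → 1 ≤ A → ∃ ρ c C : ℝ, 0 < ρ ∧ 0 < c ∧ 0 < C ∧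
  ∀ X : ℝ, 2 ≤ X →
  {x | Adm x ∧ (pd (pr x).primeFactors : ℝ) ≤ X ∧
    (∀ i, X ^ (1 / 3 - ρ) ≤ (pd (x i).natAbs.primeFactors : ℝ)) ∧
    X ^ (1 / 3 + ε) ≤ (ht x : ℝ) ∧ Real.log (ht x) ≤ A * Real.log X}.Finite ∧
  ({x | Adm x ∧ (pd (pr x).primeFactors : ℝ) ≤ X ∧
    (∀ i, X ^ (1 / 3 - ρ) ≤ (pd (x i).natAbs.primeFactors : ℝ)) ∧
    X ^ (1 / 3 + ε) ≤ (ht x : ℝ) ∧ Real.log (ht x) ≤ A * Real.log X}.ncard : ℝ) ≤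
    C * X ^ (2 / 3 - c)

/-- GPL: almost all triples have height at most `rad ^ (1 / 3 + ε)`. -/
def T_GPL : Prop := ∀ ε : ℝ, 0 < ε → ∃ c C : ℝ, 0 < c ∧ 0 < C ∧ ∀ X : ℝ, 1 ≤ X →
  {x | Adm x ∧ (pd (pr x).primeFactors : ℝ) ≤ X ∧
    (pd (pr x).primeFactors : ℝ) ^ (1 / 3 + ε) < (ht x : ℝ)}.Finite ∧
  ({x | Adm x ∧ (pd (pr x).primeFactors : ℝ) ≤ X ∧
    (pd (pr x).primeFactors : ℝ) ^ (1 / 3 + ε) < (ht x : ℝ)}.ncard : ℝ) ≤ C * X ^ (2 / 3 - c)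

end Pool.Agent.H82.TG
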