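import Pool.Agent.H82.TG.Sel
import Pool.Agent.H82.TG.Targets
import Pool.Agent.H59.AB.SEL3b
import Pool.Agent.H23.AF.Targets
import Pool.Agent.H48.AF.WE

/-!
# RT: every triple of moderate height belongs to one of two classes
-/

set_option autoImplicit false

namespace Pool.Agent.H82.TG

open Finset
open Pool.Agent.H38.RB Pool.Agent.H38.PS Pool.Agent.H38.AE Pool.Agent.H23.AF
open Pool.Agent.H59.AB (primes_pr disj log_pd fact_pr log_entry)

theorem tp_dvd' {G : Finset ℕ} {m : ℕ} (hm : m ≠ 0) (hG : G ⊆ m.primeFactors) : tp G m ∣ m := by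
  have h1 : ∏ p ∈ m.primeFactors, p ^ m.factorization p = m :=
    Nat.prod_factorization_pow_eq_self hm
  calc tp G m ∣ ∏ p ∈ m.primeFactors, p ^ m.factorization p :=
        Finset.prod_dvd_prod_of_subset _ _ _ hG
    _ = m := h1

theorem tp_pf' {G : Finset ℕ} {m : ℕ} (hm : m ≠ 0) (hG : G ⊆ m.primeFactors) :
    (tp G m).primeFactors = G := by
  have hp : ∀ p ∈ G, p.Prime := fun p h => Nat.prime_of_mem_primeFactors (hG h)
  ext p
  unfold tp
  rw [Nat.mem_primeFactors]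
  constructor
  · rintro ⟨h1, h2, -⟩
    obtain ⟨q, hq, h3⟩ := (Nat.Prime.prime h1).exists_mem_finset_dvd h2
    have h4 := (Nat.prime_dvd_prime_iff_eq h1 (hp q hq)).1 (h1.dvd_of_dvd_pow h3)
    rw [h4]; exact hq
  · intro h
    refine ⟨hp p h, ?_, ?_⟩
    · refine dvd_trans ?_ (Finset.dvd_prod_of_mem _ h)
      exact dvd_pow_self _ ((hp p h).factorization_pos_of_dvd hm
        (Nat.dvd_of_mem_primeFactors (hG h))).ne'
    · exact Finset.prod_ne_zero_iff.2 fun q hq => pow_ne_zero _ (hp q hq).ne_zero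

/-- two entries are at least half the height -/
theorem two_large {x : Fin 3 → ℤ} (hx : Adm x) :
    ∃ a b : Fin 3, a ≠ b ∧ ht x ≤ 2 * (x a).natAbs ∧ ht x ≤ 2 * (x b).natAbs := by
  have hs := hx.2.2
  have key : (ht x ≤ 2 * (x 0).natAbs ∧ ht x ≤ 2 * (x 1).natAbs) ∨
      (ht x ≤ 2 * (x 0).natAbs ∧ ht x ≤ 2 * (x 2).natAbs) ∨
      (ht x ≤ 2 * (x 1).natAbs ∧ ht x ≤ 2 * (x 2).natAbs) := by
    unfold ht
    omega
  rcases key with h | h | h
  · exact ⟨0, 1, by decide, h⟩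
  · exact ⟨0, 2, by decide, h⟩
  · exact ⟨1, 2, by decide, h⟩

/-- the triple of the entries, in the order `σ` -/
def pm (σ : Equiv.Perm (Fin 3)) (x : Fin 3 → ℤ) : ℤ × ℤ × ℤ := (x (σ 0), x (σ 1), x (σ 2))

theorem pm_injective (σ : Equiv.Perm (Fin 3)) : Function.Injective (pm σ) := by
  intro x y h
  simp only [pm, Prod.mk.injEq] at h
  funext i
  obtain ⟨j, rfl⟩ := σ.surjective i
  fin_cases j
  · exact h.1
  · exact h.2.1
  · exact h.2.2

theorem le_ht (x : Fin 3 → ℤ) (i : Fin 3) : (x i).natAbs ≤ ht x := by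
  unfold ht
  fin_cases i
  · exact le_max_left _ _
  · exact (le_max_left _ _).trans (le_max_right _ _)
  · exact (le_max_right _ _).trans (le_max_right _ _)

theorem pm_tri {x : Fin 3 → ℤ} (hx : Adm x) {N : ℕ} (hN : ht x ≤ N) (σ : Equiv.Perm (Fin 3)) :
    pm σ x ∈ Tri N := by
  have habs : ∀ i, |x i| ≤ (N : ℤ) := fun i => by
    rw [Int.abs_eq_natAbs]
    exact_mod_cast (le_ht x i).trans hN
  have hne : ∀ i j : Fin 3, i ≠ j → IsCoprime (x (σ i)) (x (σ j)) := fun i j hij =>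
    hx.2.1 _ _ fun h => hij (σ.injective h)
  have hsum : x (σ 0) + x (σ 1) + x (σ 2) = 0 := by
    have h1 := Equiv.sum_comp σ x
    rw [Fin.sum_univ_three, Fin.sum_univ_three] at h1
    rw [h1]
    exact hx.2.2
  exact ⟨hx.1 _, hx.1 _, hx.1 _, hne 0 1 (by decide), hne 0 2 (by decide), hne 1 2 (by decide),
    hsum, habs _, habs _, habs _⟩

theorem RR_eq (x : Fin 3 → ℤ) (i : Fin 3) : RR (x i) = (pd (x i).natAbs.primeFactors : ℝ) := rfl

theorem pd_pos' {S : Finset ℕ} (hS : ∀ p ∈ S, p.Prime) : (0 : ℝ) < pd S := by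
  have : 0 < pd S := Finset.prod_pos fun p hp => (hS p hp).pos
  exact_mod_cast this

theorem sum_log_pd {x : Fin 3 → ℤ} (hx : Adm x) :
    Real.log (pd (pr x).primeFactors : ℝ) =
      Real.log (pd (x 0).natAbs.primeFactors) + Real.log (pd (x 1).natAbs.primeFactors) +
      Real.log (pd (x 2).natAbs.primeFactors) := by
  have h1 : ∀ i, Real.log (pd (x i).natAbs.primeFactors : ℝ) =
      ∑ p ∈ (x i).natAbs.primeFactors, Real.log (p : ℝ) := fun i =>
    log_pd _ fun p hp => Nat.prime_of_mem_primeFactors hp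
  rw [log_pd _ (fun p hp => Nat.prime_of_mem_primeFactors hp), primes_pr hx,
    Finset.sum_biUnion (fun i _ j _ hij => disj hx hij), Fin.sum_univ_three, h1, h1, h1]

/-- the radicals of the entries are at most `X ^ (1 / 3 + 2 ρ)` -/
theorem rad_le {x : Fin 3 → ℤ} (hx : Adm x) {X ρ : ℝ} (hX : 1 < X)
    (hR : (pd (pr x).primeFactors : ℝ) ≤ X)
    (hi : ∀ i, X ^ (1 / 3 - ρ) ≤ (pd (x i).natAbs.primeFactors : ℝ)) (i : Fin 3) :
    Real.log (pd (x i).natAbs.primeFactors) ≤ (1 / 3 + 2 * ρ) * Real.log X := by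
  have hX0 : 0 < X := by linarith
  have h1 : ∀ j, (1 / 3 - ρ) * Real.log X ≤ Real.log (pd (x j).natAbs.primeFactors) := fun j => by
    have := Real.log_le_log (Real.rpow_pos_of_pos hX0 _) (hi j)
    rwa [Real.log_rpow hX0] at this
  have h2 := Real.log_le_log (pd_pos' fun p hp => Nat.prime_of_mem_primeFactors hp) hR
  rw [sum_log_pd hx] at h2
  have h3 := h1 0
  have h4 := h1 1
  have h5 := h1 2
  fin_cases i
  · show Real.log (pd (x 0).natAbs.primeFactors) ≤ _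
    linarith
  · show Real.log (pd (x 1).natAbs.primeFactors) ≤ _
    linarith
  · show Real.log (pd (x 2).natAbs.primeFactors) ≤ _
    linarith

/-- the class of a good modulus of the entry `σ 2` -/
theorem cov_E {x : Fin 3 → ℤ} (hx : Adm x) {N : ℕ} (hN : ht x ≤ N) (σ : Equiv.Perm (Fin 3))
    {X ρ z : ℝ} (hX : 1 < X) (hρ : 0 ≤ ρ)
    (hW : ∀ i, Real.log (pd (x i).natAbs.primeFactors) ≤ (1 / 3 + 2 * ρ) * Real.log X)
    {G : Finset ℕ} (hG : G ⊆ (x (σ 2)).natAbs.primeFactors) {g γ : ℝ}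
    (hg : g = ∑ p ∈ G, Real.log p / Real.log X)
    (hγ : γ = ∑ p ∈ G, ((x (σ 2)).natAbs.factorization p : ℝ) * (Real.log p / Real.log X))
    (h1 : g + (1 / 3 + 2 * ρ) ≤ z) (h2 : g + 2 * (1 / 3 + 2 * ρ) - γ ≤ z)
    (h3 : g + 9 / 5 * (1 / 3 + 2 * ρ) - 3 / 5 * γ ≤ z)
    (h4 : g + 7 / 5 * (1 / 3 + 2 * ρ) - 1 / 5 * γ ≤ z) :
    pm σ x ∈ SE2 N (4 * X ^ z) := by
  have hX0 : 0 < X := by linarith
  have hl : 0 < Real.log X := Real.log_pos hX
  have hn0 : (x (σ 2)).natAbs ≠ 0 := Int.natAbs_ne_zero.2 (hx.1 _)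
  have hp : ∀ p ∈ G, p.Prime := fun p h => Nat.prime_of_mem_primeFactors (hG h)
  have hrad : ((rad (tp G (x (σ 2)).natAbs) : ℕ) : ℝ) = X ^ g := by
    have e1 : rad (tp G (x (σ 2)).natAbs) = pd G := by
      unfold rad pd
      rw [tp_pf' hn0 hG]
    have hgl : Real.log X * g = Real.log (pd G : ℝ) := by
      rw [hg, log_pd G hp, Finset.mul_sum]
      exact Finset.sum_congr rfl fun p _ => by field_simp
    rw [e1, Real.rpow_def_of_pos hX0, hgl, Real.exp_log (pd_pos' hp)]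
  have htp0 : 0 < tp G (x (σ 2)).natAbs := by
    unfold tp
    exact Finset.prod_pos fun p h => pow_pos (hp p h).pos _
  have hq : ((tp G (x (σ 2)).natAbs : ℕ) : ℝ) = X ^ γ := by
    have hγl : Real.log X * γ = Real.log (tp G (x (σ 2)).natAbs : ℝ) := by
      rw [hγ, smo_log_tp G hp, Finset.mul_sum]
      exact Finset.sum_congr rfl fun p _ => by field_simp
    rw [Real.rpow_def_of_pos hX0, hγl, Real.exp_log (by exact_mod_cast htp0)]
  refine ⟨pm_tri hx hN σ, tp G (x (σ 2)).natAbs, htp0, ?_, ?_⟩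
  · show ((tp G (x (σ 2)).natAbs : ℕ) : ℤ) ∣ x (σ 2)
    rw [Int.natCast_dvd]
    exact tp_dvd' hn0 hG
  · obtain ⟨-, hWE2, hWE3, -⟩ := Pool.Agent.H48.AF.pf_WE
    set Q : ℝ := ((tp G (x (σ 2)).natAbs : ℕ) : ℝ) * (mx (pm σ x) : ℝ) / |((x (σ 2) : ℤ) : ℝ)|
      with hQ
    have hxa : (0 : ℝ) < |((x (σ 2) : ℤ) : ℝ)| := abs_pos.2 (Int.cast_ne_zero.2 (hx.1 _))
    have hmx : |((x (σ 2) : ℤ) : ℝ)| ≤ (mx (pm σ x) : ℝ) := by
      have : |x (σ 2)| ≤ mx (pm σ x) := (le_max_right _ _).trans (le_max_right _ _)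
      exact_mod_cast this
    have hq1 : (1 : ℝ) ≤ ((tp G (x (σ 2)).natAbs : ℕ) : ℝ) := by exact_mod_cast htp0
    have hqQ : ((tp G (x (σ 2)).natAbs : ℕ) : ℝ) ≤ Q := by
      rw [hQ, le_div_iff₀ hxa]
      exact mul_le_mul_of_nonneg_left hmx (by linarith)
    have hQ1 : 1 ≤ Q := hq1.trans hqQ
    have hXW : 1 ≤ X ^ (1 / 3 + 2 * ρ) := Real.one_le_rpow hX.le (by linarith)
    have hw : ∀ i, w5 Q (RR (x i)) ≤ w5 (X ^ γ) (X ^ (1 / 3 + 2 * ρ)) := by
      intro i
      have e0 : (0 : ℝ) < pd (x i).natAbs.primeFactors :=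
        pd_pos' fun p hp => Nat.prime_of_mem_primeFactors hp
      have e1 : (1 : ℝ) ≤ RR (x i) := by
        rw [RR_eq]
        have : 0 < pd (x i).natAbs.primeFactors := by exact_mod_cast e0
        exact_mod_cast this
      have e2 : RR (x i) ≤ X ^ (1 / 3 + 2 * ρ) := by
        rw [RR_eq, ← Real.log_le_log_iff e0 (by positivity), Real.log_rpow hX0]
        exact hW i
      refine (hWE2 Q _ _ hQ1 e1 e2).trans ?_
      rw [← hq]
      exact hWE3 _ _ _ hq1 hXW hqQ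
    have hw0 : 0 ≤ w5 (X ^ γ) (X ^ (1 / 3 + 2 * ρ)) := by
      unfold w5
      positivity
    have hsq : Real.sqrt (w5 Q (RR (x (σ 0))) * w5 Q (RR (x (σ 1)))) ≤
        w5 (X ^ γ) (X ^ (1 / 3 + 2 * ρ)) := by
      have e3 : 0 ≤ w5 Q (RR (x (σ 1))) := by
        unfold w5
        have : 0 ≤ RR (x (σ 1)) := by rw [RR_eq]; positivity
        positivity
      have e4 : w5 Q (RR (x (σ 0))) * w5 Q (RR (x (σ 1))) ≤
          w5 (X ^ γ) (X ^ (1 / 3 + 2 * ρ)) ^ 2 := by
        rw [pow_two]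
        exact mul_le_mul (hw _) (hw _) e3 hw0
      calc _ ≤ Real.sqrt (w5 (X ^ γ) (X ^ (1 / 3 + 2 * ρ)) ^ 2) := Real.sqrt_le_sqrt e4
        _ = _ := Real.sqrt_sq hw0
    show ((rad (tp G (x (σ 2)).natAbs) : ℕ) : ℝ) *
      Real.sqrt (w5 Q (RR (x (σ 0))) * w5 Q (RR (x (σ 1)))) ≤ 4 * X ^ z
    rw [hrad]
    calc X ^ g * Real.sqrt (w5 Q (RR (x (σ 0))) * w5 Q (RR (x (σ 1))))
        ≤ X ^ g * w5 (X ^ γ) (X ^ (1 / 3 + 2 * ρ)) :=
          mul_le_mul_of_nonneg_left hsq (by positivity)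
      _ = X ^ (g + (1 / 3 + 2 * ρ)) + X ^ (g + 2 * (1 / 3 + 2 * ρ) - γ) +
          X ^ (g + 9 / 5 * (1 / 3 + 2 * ρ) - 3 / 5 * γ) +
          X ^ (g + 7 / 5 * (1 / 3 + 2 * ρ) - 1 / 5 * γ) := by
          unfold w5
          rw [mul_add, mul_add, mul_add, mul_add, mul_add, mul_add, mul_one]
          congr 1
          · congr 1
            · congr 1
              · rw [← Real.rpow_add hX0]
              · rw [← Real.rpow_sub hX0, ← Real.rpow_add hX0, ← Real.rpow_add hX0]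
                congr 1
                ring
            · rw [← Real.rpow_mul hX0.le, ← Real.rpow_mul hX0.le, ← Real.rpow_sub hX0,
                ← Real.rpow_add hX0, ← Real.rpow_add hX0]
              congr 1
              ring
          · rw [← Real.rpow_natCast (X ^ (1 / 3 + 2 * ρ)) 2, ← Real.rpow_mul hX0.le,
              ← Real.rpow_sub hX0, ← Real.rpow_mul hX0.le, ← Real.rpow_add hX0,
              ← Real.rpow_add hX0]
            congr 1
            push_cast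
            ring
      _ ≤ X ^ z + X ^ z + X ^ z + X ^ z := by
          have := Real.rpow_le_rpow_of_exponent_le hX.le h1
          have := Real.rpow_le_rpow_of_exponent_le hX.le h2
          have := Real.rpow_le_rpow_of_exponent_le hX.le h3
          have := Real.rpow_le_rpow_of_exponent_le hX.le h4
          gcongr
      _ = 4 * X ^ z := by ring

end Pool.Agent.H82.TG
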