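import Pool.Agent.H15.TG.Targets

/-!
Symplectic torus actions commuting with a unipotent one-parameter group (MP_51eb24_ag):
existence of a homogeneous element all of whose brackets with the primes are polynomials in the
primes (module VEX of the board `tga_modules`).
-/

set_option autoImplicit false

namespace Pool.Agent.H82.TG

open MvPolynomial Pool.Agent.H2.ST Pool.Agent.H15.TG

variable {k : Type} [Field k] {m d : ℕ}

theorem it_zero (p : Pol k m) (n : ℕ) : (br p)^[n] 0 = 0 := by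
  induction n with
  | zero => rfl
  | succ n ih => rw [Function.iterate_succ_apply', ih, br_zero]

theorem it_comm {p q : Pol k m} (h : br p q = 0) (n : ℕ) (g : Pol k m) :
    br p ((br q)^[n] g) = (br q)^[n] (br p g) := by
  induction n with
  | zero => rfl
  | succ n ih =>
    rw [Function.iterate_succ_apply', Function.iterate_succ_apply', jac, h, zero_br, zero_add, ih]

/-- last iterate -/
theorem last_it {A : Type} [Zero A] (T : A → A) (h : A) (h0 : h ≠ 0) (hn : ∃ n, T^[n] h = 0) :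
    ∃ n, T^[n] h ≠ 0 ∧ T^[n + 1] h = 0 := by
  classical
  obtain ⟨n, hn⟩ := hn
  induction n with
  | zero => exact absurd hn h0
  | succ n ih =>
    by_cases hc : T^[n] h = 0
    · exact ih hc
    · exact ⟨n, hc, hn⟩

theorem it_memK {K : Subalgebra k (Pol k m)} (hb : ∀ a ∈ K, ∀ b ∈ K, br a b ∈ K) {p g : Pol k m}
    (hp : p ∈ K) (hg : g ∈ K) (n : ℕ) : (br p)^[n] g ∈ K := by
  induction n with
  | zero => exact hg
  | succ n ih => rw [Function.iterate_succ_apply']; exact hb _ hp _ ih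

theorem it_memW {W : (Fin d → ℤ) → Submodule k (Pol k m)} (hW : PGr W) {p g : Pol k m}
    {θ χ : Fin d → ℤ} (hp : p ∈ W θ) (hg : g ∈ W χ) (n : ℕ) :
    (br p)^[n] g ∈ W (n • θ + χ) := by
  induction n with
  | zero => simpa using hg
  | succ n ih =>
    rw [Function.iterate_succ_apply']
    have h := hW.pbr _ _ _ _ hp ih
    have e : θ + (n • θ + χ) = (n + 1) • θ + χ := by
      rw [succ_nsmul]; abel
    rwa [e] at h

/-- the corrected element -/
noncomputable def cor (p G z : Pol k m) (N M : ℕ) : Pol k m :=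
  ∑ n ∈ Finset.range (M + 1), C (((n.factorial : ℕ) : k)⁻¹) * (p ^ (N - n) * G ^ n * (br p)^[n] z)

theorem br_cor [CharZero k] {p G : Pol k m} (hG : br p G = -p) (z : Pol k m) (N : ℕ) :
    ∀ M ≤ N, br p (cor p G z N M) =
      C (((M.factorial : ℕ) : k)⁻¹) * (p ^ (N - M) * G ^ M * (br p)^[M + 1] z) := by
  intro M
  induction M with
  | zero =>
    intro _
    unfold cor
    rw [Finset.sum_range_one]
    simp only [Nat.factorial_zero, Nat.cast_one, inv_one, map_one, one_mul, Nat.sub_zero, pow_zero,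
      mul_one, Function.iterate_zero, id_eq, zero_add, Function.iterate_one]
    rw [br_mul, br_pow, br_self, mul_zero, mul_zero, add_zero]
  | succ M ih =>
    intro hM
    have ih' := ih (by omega)
    have e : cor p G z N (M + 1) = cor p G z N M + C ((((M + 1).factorial : ℕ) : k)⁻¹) *
        (p ^ (N - (M + 1)) * G ^ (M + 1) * (br p)^[M + 1] z) := by
      unfold cor
      rw [Finset.sum_range_succ]
    rw [e, br_add, ih']
    have h1 : p ^ (N - M) = p ^ (N - (M + 1)) * p := by
      rw [← pow_succ]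
      congr 1
      omega
    have h2 : (C (((M.factorial : ℕ) : k)⁻¹) : Pol k m) =
        C ((((M + 1).factorial : ℕ) : k)⁻¹) * ((M + 1 : ℕ) : Pol k m) := by
      have : ((M + 1 : ℕ) : Pol k m) = C ((M + 1 : ℕ) : k) := by simp
      rw [this, ← C_mul]
      congr 1
      rw [Nat.factorial_succ, Nat.cast_mul]
      have hc : ((M + 1 : ℕ) : k) ≠ 0 := by exact_mod_cast Nat.succ_ne_zero M
      have hf : ((M.factorial : ℕ) : k) ≠ 0 := by exact_mod_cast Nat.factorial_ne_zero M
      field_simp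
    have h3 : br p (p ^ (N - (M + 1)) * G ^ (M + 1) * (br p)^[M + 1] z) =
        p ^ (N - (M + 1)) * G ^ (M + 1) * (br p)^[M + 1 + 1] z -
          ((M + 1 : ℕ) : Pol k m) * (p ^ (N - (M + 1)) * p * G ^ M * (br p)^[M + 1] z) := by
      rw [br_mul, br_mul, br_pow, br_pow, br_self, hG, Function.iterate_succ_apply' (br p) (M + 1) z,
        Nat.add_sub_cancel]
      ring
    rw [br_mul, br_C, mul_zero, add_zero, h3, h2, h1]
    ring

theorem br_cor_zero {p q G z : Pol k m} (hqp : br q p = 0) (hqG : br q G = 0) (hqz : br q z = 0)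
    (N M : ℕ) : br q (cor p G z N M) = 0 := by
  unfold cor
  rw [br_sum]
  apply Finset.sum_eq_zero
  intro n _
  rw [br_mul, br_C, mul_zero, add_zero, br_mul, br_mul, br_pow, br_pow, hqp, hqG, it_comm hqp, hqz,
    it_zero]
  ring

theorem br_cor_f {f p G z : Pol k m} (hfp : br f p = 0) (hfG : br f G = 0)
    (hz : br p (br f z) = 0) (N M : ℕ) : br f (cor p G z N M) = p ^ N * br f z := by
  unfold cor
  rw [br_sum, Finset.sum_range_succ']
  rw [Finset.sum_eq_zero, zero_add]
  · simp only [Nat.factorial_zero, Nat.cast_one, inv_one, map_one, one_mul, Nat.sub_zero, pow_zero,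
      mul_one, Function.iterate_zero, id_eq]
    rw [br_mul, br_pow, hfp, mul_zero, mul_zero, add_zero]
  · intro n _
    rw [br_mul, br_C, mul_zero, add_zero, br_mul, br_mul, br_pow, br_pow, hfp, hfG, it_comm hfp,
      Function.iterate_succ_apply, hz, it_zero]
    ring

theorem cor_memK {K : Subalgebra k (Pol k m)} (hb : ∀ a ∈ K, ∀ b ∈ K, br a b ∈ K)
    {p G z : Pol k m} (hp : p ∈ K) (hG : G ∈ K) (hz : z ∈ K) (N M : ℕ) : cor p G z N M ∈ K := by
  unfold cor
  apply Subalgebra.sum_mem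
  intro n _
  exact K.mul_mem (K.algebraMap_mem _)
    (K.mul_mem (K.mul_mem (K.pow_mem hp _) (K.pow_mem hG _)) (it_memK hb hp hz n))

theorem cor_memW {W : (Fin d → ℤ) → Submodule k (Pol k m)} (hW : PGr W) {p G z : Pol k m}
    {θ χ : Fin d → ℤ} (hp : p ∈ W θ) (hG : G ∈ W 0) (hz : z ∈ W χ) (N M : ℕ) (hM : M ≤ N) :
    cor p G z N M ∈ W (N • θ + χ) := by
  unfold cor
  apply Submodule.sum_mem
  intro n hn
  rw [C_mul']
  apply Submodule.smul_mem
  have h1 := pow_mem_gr hW.toGr hp (N - n)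
  have h2 := pow_mem_gr hW.toGr hG n
  have h3 := it_memW hW hp hz n
  have h4 := hW.mul _ _ _ _ (hW.mul _ _ _ _ h1 h2) h3
  have e : (N - n) • θ + n • (0 : Fin d → ℤ) + (n • θ + χ) = N • θ + χ := by
    rw [smul_zero, add_zero, ← add_assoc, ← add_smul, Nat.sub_add_cancel]
    have := Finset.mem_range.1 hn
    omega
  rwa [e] at h4

/-- existence of an element with brackets in `k[π]` -/
theorem pf_VEX (hPPC : T_PPC) (hPNL : T_PNL) (hPCN : T_PCN) (hPFC : T_PFC) (hDUA : T_DUA)
    (hGBR : T_GBR) (hPHR : T_PHR) (hCGR : T_CGR) : T_VEX := by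
  intro k _ _ _ m d W K H f π ψ a c0 hM
  classical
  have _ := hCGR
  have hG := hM.toGd
  have hF := hG.toFd
  have hD := hF.toDat
  have hW := hD.toPGr
  have hbk := hD.bk
  have hπK : ∀ i, π i ∈ K := fun i => (mem_Cf.1 (hM.hp i)).1
  have hfπ : ∀ i, br f (π i) = 0 := fun i => (mem_Cf.1 (hM.hp i)).2
  have hPP := hPPC k m d W K H f π ψ a c0 hM
  have hNL := hPNL k m d W K H f π ψ a c0 hM
  have hCN := hPCN k m d W K H f π ψ a c0 hM
  have hFC := hPFC k m d W K H f π ψ a c0 hM
  -- step 0: a homogeneous element not commuting with f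
  have s0 : ∃ z ∈ K, (∃ χ, z ∈ W χ) ∧ br f z ≠ 0 := by
    by_contra hcon
    have hall : ∀ g ∈ K, br f g = 0 := by
      intro g hg
      obtain ⟨c, hc, hs⟩ := hD.cp g hg
      rw [← hs, Finsupp.sum, br_sum]
      apply Finset.sum_eq_zero
      intro χ _
      by_contra hne
      exact hcon ⟨c χ, (hc χ).2, ⟨χ, (hc χ).1⟩, hne⟩
    obtain ⟨c, hc⟩ := hD.cn f hF.fK (fun g hg => by rw [hall g hg]; exact dvd_zero _)
    have h0 := hF.fc0
    rw [hc, constantCoeff_C] at h0
    apply hF.fn
    rw [hc, h0, C_0]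
  -- step 1: br f z commutes with all π j
  have s1 : ∀ S : Finset (Fin (d + 1)), ∃ z ∈ K, (∃ χ, z ∈ W χ) ∧ br f z ≠ 0 ∧
      ∀ j ∈ S, br (π j) (br f z) = 0 := by
    intro S
    induction S using Finset.induction_on with
    | empty =>
      obtain ⟨z, hz, hχ, hne⟩ := s0
      exact ⟨z, hz, hχ, hne, fun j hj => absurd hj (Finset.notMem_empty j)⟩
    | insert i S _ ih =>
      obtain ⟨z, hz, ⟨χ, hχ⟩, hne, hS⟩ := ih
      obtain ⟨n, hn1, hn2⟩ := last_it (br (π i)) (br f z) hne
        (hNL i _ (hbk _ hF.fK _ hz))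
      have hc : br f ((br (π i))^[n] z) = (br (π i))^[n] (br f z) := it_comm (hfπ i) n z
      refine ⟨(br (π i))^[n] z, it_memK hbk (hπK i) hz n, ⟨_, it_memW hW (hM.wp i) hχ n⟩, ?_, ?_⟩
      · rw [hc]; exact hn1
      · intro j hj
        rw [hc]
        rcases Finset.mem_insert.1 hj with rfl | hj
        · rw [← Function.iterate_succ_apply' (br (π j))]
          exact hn2
        · rw [it_comm (hPP j i), hS j hj, it_zero]
  -- step 2: z commutes with all π j except one
  set j0 : Fin (d + 1) := 0 with hj0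
  obtain ⟨b, hb1, hb2⟩ := hDUA k m d W K H f π ψ a c0 hM j0
  have s2 : ∀ S : Finset (Fin (d + 1)), j0 ∉ S → ∃ z ∈ K, (∃ χ, z ∈ W χ) ∧ br f z ≠ 0 ∧
      (∀ j, br (π j) (br f z) = 0) ∧ ∀ j ∈ S, br (π j) z = 0 := by
    intro S
    induction S using Finset.induction_on with
    | empty =>
      intro _
      obtain ⟨z, hz, hχ, hne, hS⟩ := s1 Finset.univ
      exact ⟨z, hz, hχ, hne, fun j => hS j (Finset.mem_univ j),
        fun j hj => absurd hj (Finset.notMem_empty j)⟩
    | insert l S hlS ih =>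
      intro hl0
      have hl : l ≠ j0 := fun h => hl0 (h ▸ Finset.mem_insert_self l S)
      obtain ⟨z, hz, ⟨χ, hχ⟩, hne, hh, hS⟩ := ih (fun h => hl0 (Finset.mem_insert_of_mem h))
      obtain ⟨N, hN⟩ := hNL l z hz
      obtain ⟨hGK, hG0, _, hGb⟩ := hGBR k m d W K H f hD (b l)
      have hGl : br (π l) (Gb H (b l)) = -π l := by
        rw [br_anti, hGb (ψ l) (π l) (hπK l) (hM.wp l), hb1 l l hl hl, if_pos rfl, one_smul]
      have hGj : ∀ j, j ≠ j0 → j ≠ l → br (π j) (Gb H (b l)) = 0 := by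
        intro j hj hjl
        rw [br_anti, hGb (ψ j) (π j) (hπK j) (hM.wp j), hb1 l j hl hj, if_neg (Ne.symm hjl),
          zero_smul, neg_zero]
      have hGf : br f (Gb H (b l)) = 0 := by
        rw [br_anti, hGb 0 f hF.fK hF.f0]
        simp
      have hf' : br f (cor (π l) (Gb H (b l)) z N N) = π l ^ N * br f z :=
        br_cor_f (hfπ l) hGf (hh l) N N
      refine ⟨cor (π l) (Gb H (b l)) z N N, cor_memK hbk (hπK l) hGK hz N N,
        ⟨_, cor_memW hW (hM.wp l) hG0 hχ N N le_rfl⟩, ?_, ?_, ?_⟩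
      · rw [hf']
        exact mul_ne_zero (pow_ne_zero _ (hM.pp l).ne_zero) hne
      · intro j
        rw [hf', br_mul, hh j, br_pow, hPP j l]
        ring
      · intro j hj
        rcases Finset.mem_insert.1 hj with rfl | hj
        · rw [br_cor hGl z N N le_rfl, Function.iterate_succ_apply', hN, br_zero]
          ring
        · have hj1 : j ≠ j0 := fun h => hl0 (h ▸ Finset.mem_insert_of_mem hj)
          have hj2 : j ≠ l := fun h => hlS (h ▸ hj)
          exact br_cor_zero (hPP j l) (hGj j hj1 hj2) (hS j hj) N N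
  obtain ⟨s, hs, ⟨χ, hχ⟩, hne, hh, hS⟩ := s2 (Finset.univ.erase j0) (Finset.notMem_erase _ _)
  refine ⟨χ, s, hs, hχ, ?_, hne⟩
  -- step 3: the last bracket
  have hhK : br f s ∈ Kp π := hCN _ (hbk _ hF.fK _ hs) hh
  obtain ⟨hr, _⟩ := hPHR k m d W K H f π ψ a c0 hM
  have hphi : phi π a s = C ((a j0 : ℕ) : k) * (∏ j ∈ Finset.univ.erase j0, π j) *
      br (π j0) s := by
    unfold phi
    apply Finset.sum_eq_single j0
    · intro j _ hj
      rw [hS j (Finset.mem_erase.2 ⟨hj, Finset.mem_univ j⟩), mul_zero]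
    · intro h
      exact absurd (Finset.mem_univ j0) h
  have hr' := hr s
  rw [hphi] at hr'
  have hprod : (∏ j, π j) ∈ Kp π := by
    apply Subalgebra.prod_mem
    intro j _
    exact Algebra.subset_adjoin ⟨j, rfl⟩
  have hprod0 : (∏ j, π j) ≠ 0 := by
    rw [Finset.prod_ne_zero_iff]
    intro j _
    exact (hM.pp j).ne_zero
  have e1 : (∏ j, π j) * br f s = (f * (C ((a j0 : ℕ) : k) * ∏ j ∈ Finset.univ.erase j0, π j)) *
      br (π j0) s := by
    rw [hr']; ring
  have hmem := (Kp π).mul_mem hprod hhK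
  have hne' : (∏ j, π j) * br f s ≠ 0 := mul_ne_zero hprod0 hne
  rw [e1] at hmem hne'
  have hfin := (hFC _ _ hne' hmem).2
  intro i
  by_cases hi : i = j0
  · rw [hi]; exact hfin
  · rw [hS i (Finset.mem_erase.2 ⟨hi, Finset.mem_univ i⟩)]
    exact (Kp π).zero_mem

end Pool.Agent.H82.TG
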