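import Pool.Agent.H82.TG.RT
import Pool.Agent.H23.AF.All

/-!
# RT, assembled
-/

set_option autoImplicit false

namespace Pool.Agent.H82.TG

theorem rt : T_RT :=
  pf_RT (Pool.Agent.H20.AF.pf_JE Pool.Agent.H74.AE.A.pf_A Pool.Agent.H23.AF.all_G2
      Pool.Agent.H48.AF.pf_WE)
    (Pool.Agent.H48.AF.JJ.pf_JJ Pool.Agent.H74.AE.A.pf_A Pool.Agent.H23.AF.all_A2)

end Pool.Agent.H82.TG
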