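import Mathlib

/-!
# RT: choice of the modulus
-/

set_option autoImplicit false

namespace Pool.Agent.H82.TG

open Finset

/-- a set of small items contains a set of given size -/
theorem greedy (T : Finset ℕ) (w : ℕ → ℝ) (c : ℝ) (hw : ∀ p ∈ T, w p < c)
    (hT : c ≤ ∑ p ∈ T, w p) (hc : 0 < c) : ∃ G ⊆ T, c ≤ ∑ p ∈ G, w p ∧ ∑ p ∈ G, w p < 2 * c := by
  classical
  induction T using Finset.induction_on with
  | empty =>
    rw [Finset.sum_empty] at hT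
    linarith
  | insert a S ha ih =>
    rcases le_or_gt c (∑ p ∈ S, w p) with h | h
    · obtain ⟨G, hG, h1, h2⟩ := ih (fun p hp => hw p (Finset.mem_insert_of_mem hp)) h
      exact ⟨G, hG.trans (Finset.subset_insert _ _), h1, h2⟩
    · refine ⟨insert a S, Finset.Subset.refl _, hT, ?_⟩
      rw [Finset.sum_insert ha]
      have := hw a (Finset.mem_insert_self _ _)
      linarith

/-- the choice of the modulus: `g` is the weight and `γ` the size of the modulus -/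
theorem sel (T : Finset ℕ) (w : ℕ → ℝ) (v : ℕ → ℕ) (c ρ ε : ℝ) (hw : ∀ p ∈ T, 0 ≤ w p)
    (hv : ∀ p ∈ T, 1 ≤ v p) (hc0 : 0 < c) (hc : c ≤ 1 / 30) (hρ0 : 0 ≤ ρ) (hρc : 40 * ρ ≤ c)
    (hρε : 8 * ρ ≤ ε) (hθ : ∑ p ∈ T, w p + ε ≤ ∑ p ∈ T, (v p : ℝ) * w p) :
    (∃ G ⊆ T, ∃ g γ : ℝ, g = ∑ p ∈ G, w p ∧ γ = ∑ p ∈ G, (v p : ℝ) * w p ∧
      g + (1 / 3 + 2 * ρ) ≤ 2 / 3 - min (c / 2) (ε / 2) ∧
      g + 2 * (1 / 3 + 2 * ρ) - γ ≤ 2 / 3 - min (c / 2) (ε / 2) ∧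
      g + 9 / 5 * (1 / 3 + 2 * ρ) - 3 / 5 * γ ≤ 2 / 3 - min (c / 2) (ε / 2) ∧
      g + 7 / 5 * (1 / 3 + 2 * ρ) - 1 / 5 * γ ≤ 2 / 3 - min (c / 2) (ε / 2)) ∨
    ∃ p ∈ T, 2 ≤ v p ∧ 1 / 3 - c < w p := by
  classical
  have hm1 := min_le_left (c / 2) (ε / 2)
  have hm2 := min_le_right (c / 2) (ε / 2)
  have hε0 : 0 ≤ ε := by linarith
  set m := min (c / 2) (ε / 2) with hm
  by_cases hB : ∃ p ∈ T, 2 ≤ v p ∧ 1 / 3 - c < w p
  · exact Or.inr hB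
  push Not at hB
  left
  set P := T.filter fun p => 2 ≤ v p with hP
  have hPT : P ⊆ T := Finset.filter_subset _ _
  -- sets of medium weight
  have med : ∀ G ⊆ P, c ≤ ∑ p ∈ G, w p → ∑ p ∈ G, w p ≤ 1 / 3 - c →
      ∃ G ⊆ T, ∃ g γ : ℝ, g = ∑ p ∈ G, w p ∧ γ = ∑ p ∈ G, (v p : ℝ) * w p ∧
      g + (1 / 3 + 2 * ρ) ≤ 2 / 3 - m ∧
      g + 2 * (1 / 3 + 2 * ρ) - γ ≤ 2 / 3 - m ∧
      g + 9 / 5 * (1 / 3 + 2 * ρ) - 3 / 5 * γ ≤ 2 / 3 - m ∧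
      g + 7 / 5 * (1 / 3 + 2 * ρ) - 1 / 5 * γ ≤ 2 / 3 - m := by
    intro G hG h1 h2
    have h3 : 2 * ∑ p ∈ G, w p ≤ ∑ p ∈ G, (v p : ℝ) * w p := by
      rw [Finset.mul_sum]
      refine Finset.sum_le_sum fun p hp => ?_
      have h4 := (Finset.mem_filter.1 (hG hp)).2
      have h5 := hw p (hPT (hG hp))
      have h6 : (2 : ℝ) ≤ v p := by exact_mod_cast h4
      exact mul_le_mul_of_nonneg_right h6 h5
    refine ⟨G, hG.trans hPT, _, _, rfl, rfl, ?_, ?_, ?_, ?_⟩ <;> linarith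
  by_cases h1 : ∃ p ∈ P, c ≤ w p
  · obtain ⟨p, hp, hcp⟩ := h1
    have hpT := hPT hp
    have h2 := hB p hpT (Finset.mem_filter.1 hp).2
    refine med {p} (Finset.singleton_subset_iff.2 hp) ?_ ?_
    · rw [Finset.sum_singleton]
      exact hcp
    · rw [Finset.sum_singleton]
      exact h2
  push Not at h1
  rcases le_or_gt c (∑ p ∈ P, w p) with h2 | h2
  · obtain ⟨G, hG, h3, h4⟩ := greedy P w c h1 h2 hc0
    exact med G hG h3 (by linarith)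
  · have h3 : ∑ p ∈ P, w p + ε ≤ ∑ p ∈ P, (v p : ℝ) * w p := by
      have e1 : ∑ p ∈ T, w p = ∑ p ∈ P, w p + ∑ p ∈ T.filter (fun p => ¬ 2 ≤ v p), w p :=
        (Finset.sum_filter_add_sum_filter_not T (fun p => 2 ≤ v p) w).symm
      have e2 : ∑ p ∈ T, (v p : ℝ) * w p = ∑ p ∈ P, (v p : ℝ) * w p +
          ∑ p ∈ T.filter (fun p => ¬ 2 ≤ v p), (v p : ℝ) * w p :=
        (Finset.sum_filter_add_sum_filter_not T (fun p => 2 ≤ v p) _).symm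
      have e3 : ∑ p ∈ T.filter (fun p => ¬ 2 ≤ v p), (v p : ℝ) * w p =
          ∑ p ∈ T.filter (fun p => ¬ 2 ≤ v p), w p := by
        refine Finset.sum_congr rfl fun p hp => ?_
        obtain ⟨hpT, hp2⟩ := Finset.mem_filter.1 hp
        have h4 := hv p hpT
        have h5 : v p = 1 := by omega
        rw [h5, Nat.cast_one, one_mul]
      linarith
    have hP0 : 0 ≤ ∑ p ∈ P, w p := Finset.sum_nonneg fun p hp => hw p (hPT hp)
    refine ⟨P, hPT, _, _, rfl, rfl, ?_, ?_, ?_, ?_⟩ <;> linarith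

end Pool.Agent.H82.TG
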