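import Pool.Agent.H82.TG.Cov

/-!
# RT: the class of two entries which are nearly powers
-/

set_option autoImplicit false

namespace Pool.Agent.H82.TG

open Finset
open Pool.Agent.H38.RB Pool.Agent.H38.PS Pool.Agent.H38.AE Pool.Agent.H23.AF
open Pool.Agent.H59.AB (primes_pr disj log_pd fact_pr log_entry)

/-- division of an entry by a prime power -/
theorem split_pow {n : ℤ} (hn : n ≠ 0) {p : ℕ} (hp : p ∈ n.natAbs.primeFactors) :
    ∃ m : ℤ, n = m * (p : ℤ) ^ n.natAbs.factorization p ∧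
      Real.log (RR m) + Real.log p ≤ Real.log (pd n.natAbs.primeFactors) ∧ 1 ≤ RR m := by
  have hpp := Nat.prime_of_mem_primeFactors hp
  have hn0 : n.natAbs ≠ 0 := Int.natAbs_ne_zero.2 hn
  have hd : ((p : ℤ) ^ n.natAbs.factorization p) ∣ n := by
    have h1 : p ^ n.natAbs.factorization p ∣ n.natAbs := Nat.ordProj_dvd _ _
    have h2 : ((p ^ n.natAbs.factorization p : ℕ) : ℤ) ∣ n := Int.natCast_dvd.2 h1
    exact_mod_cast h2
  obtain ⟨m, hm⟩ := hd
  have hm0 : m ≠ 0 := by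
    rintro rfl
    rw [mul_zero] at hm
    exact hn hm
  have hnat : n.natAbs = p ^ n.natAbs.factorization p * m.natAbs := by
    conv_lhs => rw [hm]
    rw [Int.natAbs_mul, Int.natAbs_pow, Int.natAbs_natCast]
  have hpm : ¬ p ∣ m.natAbs := by
    intro h
    have h3 : p ^ (n.natAbs.factorization p + 1) ∣ n.natAbs := by
      rw [pow_succ]
      conv_rhs => rw [hnat]
      exact Nat.mul_dvd_mul_left _ h
    exact Nat.pow_succ_factorization_not_dvd hn0 hpp h3
  have hsub : insert p m.natAbs.primeFactors ⊆ n.natAbs.primeFactors := by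
    refine Finset.insert_subset hp fun q hq => ?_
    refine Nat.mem_primeFactors.2 ⟨Nat.prime_of_mem_primeFactors hq, ?_, hn0⟩
    rw [hnat]
    exact Dvd.dvd.mul_left (Nat.dvd_of_mem_primeFactors hq) _
  have hnot : p ∉ m.natAbs.primeFactors := fun h => hpm (Nat.dvd_of_mem_primeFactors h)
  have hprm : ∀ q ∈ m.natAbs.primeFactors, q.Prime := fun q hq => Nat.prime_of_mem_primeFactors hq
  have hRm : (0 : ℝ) < RR m := pd_pos' hprm
  refine ⟨m, by rw [mul_comm]; exact hm, ?_, ?_⟩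
  · have e1 : Real.log (RR m) = ∑ q ∈ m.natAbs.primeFactors, Real.log (q : ℝ) :=
      log_pd _ hprm
    have e2 : ∑ q ∈ insert p m.natAbs.primeFactors, Real.log (q : ℝ) =
        Real.log (p : ℝ) + ∑ q ∈ m.natAbs.primeFactors, Real.log (q : ℝ) :=
      Finset.sum_insert hnot
    rw [e1, log_pd _ (fun q hq => Nat.prime_of_mem_primeFactors hq), add_comm, ← e2]
    exact Finset.sum_le_sum_of_subset_of_nonneg hsub fun q hq _ =>
      Real.log_nonneg (by exact_mod_cast (Nat.prime_of_mem_primeFactors hq).one_lt.le)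
  · have h5 : 0 < pd m.natAbs.primeFactors := by exact_mod_cast pd_pos' hprm
    show (1 : ℝ) ≤ ((pd m.natAbs.primeFactors : ℕ) : ℝ)
    exact_mod_cast h5

theorem cov_J {x : Fin 3 → ℤ} (hx : Adm x) {N : ℕ} (hN : ht x ≤ N) (σ : Equiv.Perm (Fin 3))
    {X ρ c A z : ℝ} (hX : 1 < X) (hc : c ≤ 1 / 12)
    (hW : ∀ i, Real.log (pd (x i).natAbs.primeFactors) ≤ (1 / 3 + 2 * ρ) * Real.log X)
    (hA : Real.log (ht x) ≤ A * Real.log X)
    {p r : ℕ} (hp : p ∈ (x (σ 0)).natAbs.primeFactors) (hr : r ∈ (x (σ 1)).natAbs.primeFactors)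
    (hp2 : 2 ≤ (x (σ 0)).natAbs.factorization p) (hr2 : 2 ≤ (x (σ 1)).natAbs.factorization r)
    (hpw : 1 / 3 - c < Real.log p / Real.log X) (hrw : 1 / 3 - c < Real.log r / Real.log X)
    (hz : 2 * (c + 2 * ρ) + 3 / 2 * (1 / 3 + 2 * ρ) ≤ z) :
    pm σ x ∈ SJ2 N (X ^ z) ⌊4 * A⌋₊ := by
  have hX0 : 0 < X := by linarith
  have hl : 0 < Real.log X := Real.log_pos hX
  have hpow : ∀ (i : Fin 3) (q : ℕ), q ∈ (x i).natAbs.primeFactors →
      1 / 3 - c < Real.log q / Real.log X → (x i).natAbs.factorization q ≤ ⌊4 * A⌋₊ := by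
    intro i q hq hqw
    have hn0 : (x i).natAbs ≠ 0 := Int.natAbs_ne_zero.2 (hx.1 _)
    have hqp := Nat.prime_of_mem_primeFactors hq
    have h1 : q ^ (x i).natAbs.factorization q ≤ (x i).natAbs :=
      Nat.le_of_dvd (Nat.pos_of_ne_zero hn0) (Nat.ordProj_dvd _ _)
    have h2 : ((x i).natAbs.factorization q : ℝ) * Real.log q ≤ Real.log (ht x) := by
      rw [← Real.log_pow]
      refine Real.log_le_log ?_ ?_
      · exact_mod_cast pow_pos hqp.pos _
      · exact_mod_cast h1.trans (le_ht x i)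
    rw [lt_div_iff₀ hl] at hqw
    have h3 : 1 / 4 * Real.log X ≤ Real.log q := by nlinarith
    have h4 : ((x i).natAbs.factorization q : ℝ) * (1 / 4 * Real.log X) ≤ A * Real.log X :=
      (mul_le_mul_of_nonneg_left h3 (Nat.cast_nonneg _)).trans (h2.trans hA)
    have h5 : ((x i).natAbs.factorization q : ℝ) ≤ 4 * A := by
      have h6 : (((x i).natAbs.factorization q : ℝ) / 4) * Real.log X ≤ A * Real.log X := by
        linarith
      have h7 := le_of_mul_le_mul_right h6 hl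
      linarith
    exact Nat.le_floor h5
  obtain ⟨m, hm1, hm2, hm3⟩ := split_pow (hx.1 (σ 0)) hp
  obtain ⟨m', hm1', hm2', hm3'⟩ := split_pow (hx.1 (σ 1)) hr
  have hpp := Nat.prime_of_mem_primeFactors hp
  have hrp := Nat.prime_of_mem_primeFactors hr
  refine ⟨pm_tri hx hN σ, m, m', p, r, (x (σ 0)).natAbs.factorization p,
    (x (σ 1)).natAbs.factorization r, hpp.pos, hrp.pos, hp2, hpow _ _ hp hpw, hr2,
    hpow _ _ hr hrw, hm1, hm1', ?_⟩
  show RR m * RR m' * RR (x (σ 2)) * (p : ℝ) ^ ((1 : ℝ) / _) ≤ X ^ z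
  have hR2 : (0 : ℝ) < RR (x (σ 2)) :=
    pd_pos' fun q hq => Nat.prime_of_mem_primeFactors hq
  have hp0 : (0 : ℝ) < p := by exact_mod_cast hpp.pos
  have hp1 : (1 : ℝ) ≤ p := by exact_mod_cast hpp.one_lt.le
  rw [lt_div_iff₀ hl] at hpw hrw
  have hlp : Real.log p ≤ (1 / 3 + 2 * ρ) * Real.log X := by
    have := hW (σ 0)
    have h0 : 0 ≤ Real.log (RR m) := Real.log_nonneg hm3
    linarith
  have hf : (p : ℝ) ^ ((1 : ℝ) / ((x (σ 1)).natAbs.factorization r : ℝ)) ≤
      (p : ℝ) ^ ((1 : ℝ) / 2) := by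
    refine Real.rpow_le_rpow_of_exponent_le hp1 ?_
    have : (2 : ℝ) ≤ ((x (σ 1)).natAbs.factorization r : ℝ) := by exact_mod_cast hr2
    exact one_div_le_one_div_of_le (by norm_num) this
  have hm0 : 0 < RR m := by linarith
  have hm0' : 0 < RR m' := by linarith
  calc RR m * RR m' * RR (x (σ 2)) *
        (p : ℝ) ^ ((1 : ℝ) / ((x (σ 1)).natAbs.factorization r : ℝ))
      ≤ RR m * RR m' * RR (x (σ 2)) * (p : ℝ) ^ ((1 : ℝ) / 2) :=
        mul_le_mul_of_nonneg_left hf (by positivity)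
    _ ≤ X ^ z := by
        have hpos : 0 < RR m * RR m' * RR (x (σ 2)) * (p : ℝ) ^ ((1 : ℝ) / 2) := by positivity
        rw [← Real.log_le_log_iff hpos (by positivity), Real.log_rpow hX0,
          Real.log_mul (by positivity) (by positivity), Real.log_mul (by positivity) hR2.ne',
          Real.log_mul hm0.ne' hm0'.ne', Real.log_rpow hp0]
        have h8 := hW (σ 0)
        have h9 := hW (σ 1)
        have h10 : Real.log (RR (x (σ 2))) ≤ (1 / 3 + 2 * ρ) * Real.log X := hW (σ 2)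
        have h11 : Real.log (RR m) ≤ (c + 2 * ρ) * Real.log X := by linarith
        have h12 : Real.log (RR m') ≤ (c + 2 * ρ) * Real.log X := by linarith
        have h13 : (2 * (c + 2 * ρ) + 3 / 2 * (1 / 3 + 2 * ρ)) * Real.log X ≤ z * Real.log X :=
          mul_le_mul_of_nonneg_right hz hl.le
        linarith

end Pool.Agent.H82.TG
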