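import Pool.Agent.H82.TG.CovJ
import Pool.Agent.H31.AE.L

/-!
# RT: the triples of moderate height
-/

set_option autoImplicit false

namespace Pool.Agent.H82.TG

open Finset
open Pool.Agent.H38.RB Pool.Agent.H38.PS Pool.Agent.H38.AE Pool.Agent.H23.AF
open Pool.Agent.H59.AB (primes_pr disj log_pd fact_pr log_entry)

/-- the union of the two classes, over all orders of the entries -/
def Un (N : ℕ) (Z Z' : ℝ) (K : ℕ) : Set (Fin 3 → ℤ) :=
  ⋃ σ : Equiv.Perm (Fin 3), (pm σ) ⁻¹' (SE2 N Z ∪ SJ2 N Z' K)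

theorem un_count (N : ℕ) (Z Z' : ℝ) (K : ℕ) : (Un N Z Z' K).Finite ∧
    ((Un N Z Z' K).ncard : ℝ) ≤ 6 * ((SE2 N Z).ncard + (SJ2 N Z' K).ncard) := by
  have hfin : (SE2 N Z ∪ SJ2 N Z' K).Finite :=
    (Pool.Agent.H31.AE.tri_finite N).subset (by
      rintro t (h | h)
      · exact h.1
      · exact h.1)
  have h1 : ∀ σ : Equiv.Perm (Fin 3), ((pm σ) ⁻¹' (SE2 N Z ∪ SJ2 N Z' K)).Finite := fun σ =>
    hfin.preimage (pm_injective σ).injOn
  refine ⟨Set.finite_iUnion h1, ?_⟩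
  have h2 : (Un N Z Z' K).ncard ≤ ∑ σ : Equiv.Perm (Fin 3),
      ((pm σ) ⁻¹' (SE2 N Z ∪ SJ2 N Z' K)).ncard := by
    have e1 : Un N Z Z' K = ⋃ σ ∈ (Finset.univ : Finset (Equiv.Perm (Fin 3))),
        (pm σ) ⁻¹' (SE2 N Z ∪ SJ2 N Z' K) := by
      unfold Un
      simp
    rw [e1]
    exact Finset.set_ncard_biUnion_le _ _
  have h3 : ∀ σ : Equiv.Perm (Fin 3), ((pm σ) ⁻¹' (SE2 N Z ∪ SJ2 N Z' K)).ncard ≤
      (SE2 N Z).ncard + (SJ2 N Z' K).ncard := by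
    intro σ
    refine le_trans ?_ (Set.ncard_union_le _ _)
    exact Set.ncard_le_ncard_of_injOn (pm σ) (fun x hx => hx) (pm_injective σ).injOn hfin
  have h4 : (Un N Z Z' K).ncard ≤ 6 * ((SE2 N Z).ncard + (SJ2 N Z' K).ncard) := by
    refine h2.trans ((Finset.sum_le_sum fun σ _ => h3 σ).trans ?_)
    rw [Finset.sum_const, Finset.card_univ, Fintype.card_perm, Fintype.card_fin, smul_eq_mul]
    exact le_of_eq (by norm_num [Nat.factorial])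
  exact_mod_cast h4

theorem ex_perm : ∀ a b : Fin 3, a ≠ b → ∃ σ : Equiv.Perm (Fin 3), σ 0 = a ∧ σ 1 = b := by
  decide

/-- every triple of the class is in the union -/
theorem mem_un {ε A ρ X : ℝ} (hε : 0 < ε) (hρ0 : 0 ≤ ρ) (hρ1 : 1200 * ρ ≤ 1)
    (hρ2 : 64 * ρ ≤ ε) (hX : 1 < X) (hX0 : 4 * Real.log 2 ≤ ε * Real.log X) {N : ℕ}
    (hN : X ^ A ≤ N) {x : Fin 3 → ℤ} (hx : Adm x) (hR : (pd (pr x).primeFactors : ℝ) ≤ X)
    (hi : ∀ i, X ^ (1 / 3 - ρ) ≤ (pd (x i).natAbs.primeFactors : ℝ))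
    (hh : X ^ (1 / 3 + ε) ≤ (ht x : ℝ)) (hA' : Real.log (ht x) ≤ A * Real.log X) :
    x ∈ Un N (4 * X ^ (2 / 3 - min (1 / 60) (ε / 4))) (X ^ (2 / 3 - min (1 / 60) (ε / 4)))
      ⌊4 * A⌋₊ := by
  have hXp : 0 < X := by linarith
  have hl : 0 < Real.log X := Real.log_pos hX
  have hht0 : (0 : ℝ) < (ht x : ℝ) := lt_of_lt_of_le (Real.rpow_pos_of_pos hXp _) hh
  have hNx : ht x ≤ N := by
    have h1 : (ht x : ℝ) ≤ X ^ A := by
      rw [← Real.log_le_log_iff hht0 (by positivity), Real.log_rpow hXp]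
      exact hA'
    exact_mod_cast h1.trans hN
  have hW := rad_le hx hX hR hi
  have hcase : ∀ a : Fin 3, ht x ≤ 2 * (x a).natAbs →
      (∃ G ⊆ (x a).natAbs.primeFactors, ∃ g γ : ℝ, g = ∑ p ∈ G, Real.log p / Real.log X ∧
        γ = ∑ p ∈ G, ((x a).natAbs.factorization p : ℝ) * (Real.log p / Real.log X) ∧
        g + (1 / 3 + 2 * ρ) ≤ 2 / 3 - min (1 / 60) (ε / 4) ∧
        g + 2 * (1 / 3 + 2 * ρ) - γ ≤ 2 / 3 - min (1 / 60) (ε / 4) ∧
        g + 9 / 5 * (1 / 3 + 2 * ρ) - 3 / 5 * γ ≤ 2 / 3 - min (1 / 60) (ε / 4) ∧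
        g + 7 / 5 * (1 / 3 + 2 * ρ) - 1 / 5 * γ ≤ 2 / 3 - min (1 / 60) (ε / 4)) ∨
      ∃ p ∈ (x a).natAbs.primeFactors, 2 ≤ (x a).natAbs.factorization p ∧
        1 / 3 - 1 / 30 < Real.log p / Real.log X := by
    intro a ha
    have hn0 : (x a).natAbs ≠ 0 := Int.natAbs_ne_zero.2 (hx.1 _)
    have hprm : ∀ p ∈ (x a).natAbs.primeFactors, p.Prime := fun p hp =>
      Nat.prime_of_mem_primeFactors hp
    have hmin : min (1 / 30 / 2) (ε / 2 / 2) = min (1 / 60) (ε / 4) := by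
      rw [show (1 : ℝ) / 30 / 2 = 1 / 60 by norm_num, show ε / 2 / 2 = ε / 4 by ring]
    have hsum : ∑ p ∈ (x a).natAbs.primeFactors, Real.log p / Real.log X + ε / 2 ≤
        ∑ p ∈ (x a).natAbs.primeFactors,
          ((x a).natAbs.factorization p : ℝ) * (Real.log p / Real.log X) := by
      have e1 : ∑ p ∈ (x a).natAbs.primeFactors, Real.log (p : ℝ) / Real.log X =
          Real.log (pd (x a).natAbs.primeFactors) / Real.log X := by
        rw [log_pd _ hprm, Finset.sum_div]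
      have e2 : ∑ p ∈ (x a).natAbs.primeFactors,
          ((x a).natAbs.factorization p : ℝ) * (Real.log p / Real.log X) =
          Real.log ((x a).natAbs : ℝ) / Real.log X := by
        rw [log_entry hx a, Finset.sum_div]
        exact Finset.sum_congr rfl fun p hp => by rw [fact_pr hx hp, mul_div_assoc]
      rw [e1, e2, div_add' _ _ _ hl.ne']
      refine div_le_div_of_nonneg_right ?_ hl.le
      have h2 := hW a
      have h3 : Real.log (ht x) ≤ Real.log 2 + Real.log ((x a).natAbs : ℝ) := by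
        have hna : (0 : ℝ) < ((x a).natAbs : ℝ) := by
          exact_mod_cast Nat.pos_of_ne_zero hn0
        rw [← Real.log_mul two_ne_zero hna.ne']
        exact Real.log_le_log hht0 (by exact_mod_cast ha)
      have h4 : (1 / 3 + ε) * Real.log X ≤ Real.log (ht x) := by
        rw [← Real.log_rpow hXp]
        exact Real.log_le_log (by positivity) hh
      have h5 : 64 * ρ * Real.log X ≤ ε * Real.log X := mul_le_mul_of_nonneg_right hρ2 hl.le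
      nlinarith
    have h := sel (x a).natAbs.primeFactors (fun p => Real.log p / Real.log X)
      (fun p => (x a).natAbs.factorization p) (1 / 30) ρ (ε / 2)
      (fun p hp => div_nonneg (Real.log_nonneg (by exact_mod_cast (hprm p hp).one_lt.le)) hl.le)
      (fun p hp => (hprm p hp).factorization_pos_of_dvd hn0 (Nat.dvd_of_mem_primeFactors hp))
      (by norm_num) le_rfl hρ0 (by linarith) (by linarith) hsum
    rw [hmin] at h
    exact h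
  obtain ⟨a, b, hab, ha, hb⟩ := two_large hx
  have hE : ∀ a : Fin 3, (∃ G ⊆ (x a).natAbs.primeFactors, ∃ g γ : ℝ,
        g = ∑ p ∈ G, Real.log p / Real.log X ∧
        γ = ∑ p ∈ G, ((x a).natAbs.factorization p : ℝ) * (Real.log p / Real.log X) ∧
        g + (1 / 3 + 2 * ρ) ≤ 2 / 3 - min (1 / 60) (ε / 4) ∧
        g + 2 * (1 / 3 + 2 * ρ) - γ ≤ 2 / 3 - min (1 / 60) (ε / 4) ∧
        g + 9 / 5 * (1 / 3 + 2 * ρ) - 3 / 5 * γ ≤ 2 / 3 - min (1 / 60) (ε / 4) ∧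
        g + 7 / 5 * (1 / 3 + 2 * ρ) - 1 / 5 * γ ≤ 2 / 3 - min (1 / 60) (ε / 4)) →
      x ∈ Un N (4 * X ^ (2 / 3 - min (1 / 60) (ε / 4))) (X ^ (2 / 3 - min (1 / 60) (ε / 4)))
        ⌊4 * A⌋₊ := by
    rintro a ⟨G, hG, g, γ, hg, hγ, h1, h2, h3, h4⟩
    refine Set.mem_iUnion.2 ⟨Equiv.swap 2 a, Or.inl ?_⟩
    have hσ : Equiv.swap (2 : Fin 3) a 2 = a := Equiv.swap_apply_left _ _
    exact cov_E hx hNx (Equiv.swap 2 a) hX hρ0 hW (G := G) (by rw [hσ]; exact hG) hg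
      (by rw [hσ]; exact hγ) h1 h2 h3 h4
  rcases hcase a ha with h1 | ⟨p, hp, hp2, hpw⟩
  · exact hE a h1
  rcases hcase b hb with h2 | ⟨r, hr, hr2, hrw⟩
  · exact hE b h2
  obtain ⟨σ, hσ0, hσ1⟩ := ex_perm a b hab
  refine Set.mem_iUnion.2 ⟨σ, Or.inr ?_⟩
  have hm := min_le_left (1 / 60 : ℝ) (ε / 4)
  exact cov_J hx hNx σ hX (c := 1 / 30) (by norm_num) hW hA' (p := p) (r := r)
    (by rw [hσ0]; exact hp) (by rw [hσ1]; exact hr) (by rw [hσ0]; exact hp2)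
    (by rw [hσ1]; exact hr2) hpw hrw (by linarith)

theorem pf_RT (hJE : T_JE) (hJJ : T_JJ) : T_RT := by
  intro ε A hε hA
  obtain ⟨m, hm⟩ : ∃ m : ℝ, m = min (1 / 60) (ε / 4) := ⟨_, rfl⟩
  have hm0 : 0 < m := by rw [hm]; exact lt_min (by norm_num) (by linarith)
  have hm1 : m ≤ 1 / 60 := hm ▸ min_le_left _ _
  have hA0 : 0 < A := by linarith
  obtain ⟨C₁, hC₁, h₁⟩ := hJE (m / (2 * A)) (by positivity)
  obtain ⟨C₂, hC₂, h₂⟩ := hJJ ⌊4 * A⌋₊ (m / (2 * A)) (by positivity)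
  obtain ⟨ρ, hρ⟩ : ∃ ρ : ℝ, ρ = min (1 / 1200) (ε / 64) := ⟨_, rfl⟩
  have hρ0 : 0 < ρ := by rw [hρ]; exact lt_min (by norm_num) (by linarith)
  have hρ1 : 1200 * ρ ≤ 1 := by
    have := min_le_left (1 / 1200 : ℝ) (ε / 64)
    rw [← hρ] at this
    linarith
  have hρ2 : 64 * ρ ≤ ε := by
    have := min_le_right (1 / 1200 : ℝ) (ε / 64)
    rw [← hρ] at this
    linarith
  obtain ⟨X₀, hX₀⟩ : ∃ X₀ : ℝ, X₀ = Real.exp (4 * Real.log 2 / ε) := ⟨_, rfl⟩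
  have hX₀1 : 0 < X₀ := by rw [hX₀]; exact Real.exp_pos _
  set F₀ : Set (Fin 3 → ℤ) := (pm 1) ⁻¹' (Tri ⌈X₀ ^ A⌉₊) with hF₀
  have hF₀fin : F₀.Finite :=
    (Pool.Agent.H31.AE.tri_finite _).preimage (pm_injective 1).injOn
  refine ⟨ρ, m / 2, 6 * (C₁ * 4 + C₂) * 2 ^ (m / (2 * A)) + F₀.ncard, hρ0, by positivity,
    by positivity, fun X hX => ?_⟩
  have hX1 : 1 < X := by linarith
  have hXp : 0 < X := by linarith
  have hXz : 1 ≤ X ^ (2 / 3 - m / 2) := Real.one_le_rpow hX1.le (by linarith)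
  rcases le_or_gt X₀ X with hXX | hXX
  · have hlX : 4 * Real.log 2 ≤ ε * Real.log X := by
      have h3 : 4 * Real.log 2 / ε ≤ Real.log X := by
        rw [Real.le_log_iff_exp_le hXp, ← hX₀]
        exact hXX
      rw [div_le_iff₀ hε] at h3
      linarith
    obtain ⟨N, hN⟩ : ∃ N : ℕ, N = ⌈X ^ A⌉₊ := ⟨_, rfl⟩
    have hN1 : X ^ A ≤ N := by rw [hN]; exact Nat.le_ceil _
    have hXA : 1 ≤ X ^ A := Real.one_le_rpow hX1.le hA0.le
    have hN2 : (N : ℝ) ≤ 2 * X ^ A := by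
      have := (Nat.ceil_lt_add_one (show 0 ≤ X ^ A by linarith)).le
      rw [← hN] at this
      linarith
    have hN3 : 1 ≤ N := by
      have : (1 : ℝ) ≤ N := hXA.trans hN1
      exact_mod_cast this
    have hNm : (N : ℝ) ^ (m / (2 * A)) ≤ 2 ^ (m / (2 * A)) * X ^ (m / 2) := by
      calc (N : ℝ) ^ (m / (2 * A)) ≤ (2 * X ^ A) ^ (m / (2 * A)) :=
            Real.rpow_le_rpow (Nat.cast_nonneg _) hN2 (by positivity)
        _ = _ := by
            rw [Real.mul_rpow (by norm_num) (by positivity), ← Real.rpow_mul hXp.le]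
            congr 2
            field_simp
    obtain ⟨hU1, hU2⟩ := un_count N (4 * X ^ (2 / 3 - m)) (X ^ (2 / 3 - m)) ⌊4 * A⌋₊
    have hsub : {x | Adm x ∧ (pd (pr x).primeFactors : ℝ) ≤ X ∧
        (∀ i, X ^ (1 / 3 - ρ) ≤ (pd (x i).natAbs.primeFactors : ℝ)) ∧
        X ^ (1 / 3 + ε) ≤ (ht x : ℝ) ∧ Real.log (ht x) ≤ A * Real.log X} ⊆
        Un N (4 * X ^ (2 / 3 - m)) (X ^ (2 / 3 - m)) ⌊4 * A⌋₊ := by
      rintro x ⟨hx, hR, hi, hh, hA'⟩
      rw [hm]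
      exact mem_un hε hρ0.le hρ1 hρ2 hX1 hlX hN1 hx hR hi hh hA'
    refine ⟨hU1.subset hsub, ?_⟩
    have h5 := h₁ N (4 * X ^ (2 / 3 - m)) hN3 (by positivity)
    have h6 := h₂ N (X ^ (2 / 3 - m)) hN3 (by positivity)
    have h7 : (({x | Adm x ∧ (pd (pr x).primeFactors : ℝ) ≤ X ∧
        (∀ i, X ^ (1 / 3 - ρ) ≤ (pd (x i).natAbs.primeFactors : ℝ)) ∧
        X ^ (1 / 3 + ε) ≤ (ht x : ℝ) ∧ Real.log (ht x) ≤ A * Real.log X}.ncard : ℕ) : ℝ) ≤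
        ((Un N (4 * X ^ (2 / 3 - m)) (X ^ (2 / 3 - m)) ⌊4 * A⌋₊).ncard : ℝ) := by
      exact_mod_cast Set.ncard_le_ncard hsub hU1
    have hF0 : (0 : ℝ) ≤ F₀.ncard := Nat.cast_nonneg _
    calc _ ≤ 6 * (((SE2 N (4 * X ^ (2 / 3 - m))).ncard : ℝ) +
          ((SJ2 N (X ^ (2 / 3 - m)) ⌊4 * A⌋₊).ncard : ℝ)) := h7.trans hU2
      _ ≤ 6 * (C₁ * (N : ℝ) ^ (m / (2 * A)) * (4 * X ^ (2 / 3 - m)) +
          C₂ * (N : ℝ) ^ (m / (2 * A)) * X ^ (2 / 3 - m)) := by gcongr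
      _ = 6 * (C₁ * 4 + C₂) * (N : ℝ) ^ (m / (2 * A)) * X ^ (2 / 3 - m) := by ring
      _ ≤ 6 * (C₁ * 4 + C₂) * (2 ^ (m / (2 * A)) * X ^ (m / 2)) * X ^ (2 / 3 - m) := by gcongr
      _ = 6 * (C₁ * 4 + C₂) * 2 ^ (m / (2 * A)) * X ^ (2 / 3 - m / 2) := by
          have : X ^ (2 / 3 - m / 2) = X ^ (m / 2) * X ^ (2 / 3 - m) := by
            rw [← Real.rpow_add hXp]
            congr 1
            ring
          rw [this]
          ring
      _ ≤ _ := by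
          refine mul_le_mul_of_nonneg_right ?_ (by positivity)
          linarith
  · have hsub : {x | Adm x ∧ (pd (pr x).primeFactors : ℝ) ≤ X ∧
        (∀ i, X ^ (1 / 3 - ρ) ≤ (pd (x i).natAbs.primeFactors : ℝ)) ∧
        X ^ (1 / 3 + ε) ≤ (ht x : ℝ) ∧ Real.log (ht x) ≤ A * Real.log X} ⊆ F₀ := by
      rintro x ⟨hx, hR, hi, hh, hA'⟩
      have hht0 : (0 : ℝ) < (ht x : ℝ) := lt_of_lt_of_le (Real.rpow_pos_of_pos hXp _) hh
      have h8 : (ht x : ℝ) ≤ X₀ ^ A := by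
        have h9 : (ht x : ℝ) ≤ X ^ A := by
          rw [← Real.log_le_log_iff hht0 (by positivity), Real.log_rpow hXp]
          exact hA'
        exact h9.trans (Real.rpow_le_rpow hXp.le hXX.le hA0.le)
      have h10 : ht x ≤ ⌈X₀ ^ A⌉₊ := by exact_mod_cast h8.trans (Nat.le_ceil _)
      exact pm_tri hx h10 1
    refine ⟨hF₀fin.subset hsub, ?_⟩
    have h11 : (({x | Adm x ∧ (pd (pr x).primeFactors : ℝ) ≤ X ∧
        (∀ i, X ^ (1 / 3 - ρ) ≤ (pd (x i).natAbs.primeFactors : ℝ)) ∧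
        X ^ (1 / 3 + ε) ≤ (ht x : ℝ) ∧ Real.log (ht x) ≤ A * Real.log X}.ncard : ℕ) : ℝ) ≤
        (F₀.ncard : ℝ) := by
      exact_mod_cast Set.ncard_le_ncard hsub hF₀fin
    have h12 : (0 : ℝ) ≤ 6 * (C₁ * 4 + C₂) * 2 ^ (m / (2 * A)) := by positivity
    have h13 : (0 : ℝ) ≤ F₀.ncard := Nat.cast_nonneg _
    calc _ ≤ (F₀.ncard : ℝ) := h11
      _ ≤ (6 * (C₁ * 4 + C₂) * 2 ^ (m / (2 * A)) + F₀.ncard) * 1 := by linarith
      _ ≤ _ := mul_le_mul_of_nonneg_left hXz (by positivity)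

end Pool.Agent.H82.TG
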